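import Mathlib

set_option autoImplicit false

namespace Pool.Agent.Results.MP_c4ba3a_an.NoExtension

open scoped ContDiff Topology
open MeasureTheory Complex

/-! ### Definitions -/

/-- `S` is a real submanifold of `ℂⁿ` of class `C^r` and of real dimension `d`: near each of its
points it is the zero set of a `C^r` submersion onto `ℝ^c`, with `d + c = 2n`. -/
def IsSubmfd {n : ℕ} (r : WithTop ℕ∞) (d : ℕ) (S : Set (Fin n → ℂ)) : Prop :=
  ∀ q ∈ S, ∃ (c : ℕ) (U : Set (Fin n → ℂ)) (ρ : (Fin n → ℂ) → (Fin c → ℝ)),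
    d + c = 2 * n ∧ IsOpen U ∧ q ∈ U ∧ ContDiffOn ℝ r ρ U ∧
    (∀ x ∈ U, Function.Surjective (fderiv ℝ ρ x)) ∧ ∀ x ∈ U, x ∈ S ↔ ρ x = 0

/-- Tangent vectors of `S` at `q`: velocities at `q` of curves lying in `S`. -/
def tangent {n : ℕ} (S : Set (Fin n → ℂ)) (q : Fin n → ℂ) : Set (Fin n → ℂ) :=
  {v | ∃ γ : ℝ → (Fin n → ℂ), γ 0 = q ∧ HasDerivAt γ v 0 ∧ ∀ᶠ t in 𝓝 0, γ t ∈ S}

/-- `T_q M + i T_q M = ℂⁿ` at every point of `M`. -/
def IsGeneric {n : ℕ} (M : Set (Fin n → ℂ)) : Prop :=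
  ∀ q ∈ M, ∀ v : Fin n → ℂ, ∃ a ∈ tangent M q, ∃ b ∈ tangent M q, v = a + I • b

/-- The complex tangent space `T_q M ∩ i T_q M`. -/
def complexTangent {n : ℕ} (M : Set (Fin n → ℂ)) (q : Fin n → ℂ) : Set (Fin n → ℂ) :=
  {v | v ∈ tangent M q ∧ I • v ∈ tangent M q}

/-- Minimality (Tumanov) of the `d`-dimensional submanifold `M` at `p`: no `C²` submanifold
`S ⊆ M` through `p` of smaller dimension is tangent to the complex tangent spaces of `M`. -/
def IsMinimalAt {n : ℕ} (d : ℕ) (M : Set (Fin n → ℂ)) (p : Fin n → ℂ) : Prop :=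
  ∀ (d' : ℕ) (S : Set (Fin n → ℂ)), d' < d → S ⊆ M → p ∈ S → IsSubmfd 2 d' S →
    ¬ ∀ q ∈ S, complexTangent M q ⊆ tangent S q

/-- The function `g : M → ℂ` on the `d`-dimensional submanifold `M` is CR in the sense of
distributions: for every smooth local parametrization `Φ : Ω → M` (`Ω` open in `ℝ^d`, `Φ` an
injective immersion) and every smooth complex vector field `X = ∑ X_k ∂_k` on `Ω` whose image
under `Φ` is of type `(0,1)`, i.e. `X Φ = ∑ X_k ∂_k Φ = 0`, one has `X (g ∘ Φ) = 0` as a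
distribution on `Ω`, i.e. `∫ (g ∘ Φ) ∑ ∂_k (X_k φ) = 0` for all test functions `φ` on `Ω`. -/
def IsCR {n : ℕ} (d : ℕ) (M : Set (Fin n → ℂ)) (g : (Fin n → ℂ) → ℂ) : Prop :=
  ∀ (Ω : Set (Fin d → ℝ)) (Φ : (Fin d → ℝ) → (Fin n → ℂ)) (X : (Fin d → ℝ) → (Fin d → ℂ))
    (φ : (Fin d → ℝ) → ℂ),
    IsOpen Ω → ContDiffOn ℝ ∞ Φ Ω → Set.InjOn Φ Ω →
    (∀ x ∈ Ω, Function.Injective (fderiv ℝ Φ x)) → Set.MapsTo Φ Ω M →
    ContDiffOn ℝ ∞ X Ω → (∀ x ∈ Ω, ∑ k, X x k • fderiv ℝ Φ x (Pi.single k 1) = 0) →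
    ContDiff ℝ ∞ φ → HasCompactSupport φ → tsupport φ ⊆ Ω →
    ∫ x, g (Φ x) * ∑ k, fderiv ℝ (fun y => X y k * φ y) x (Pi.single k 1) = 0

/-- `f : M → ℂᴺ` extends meromorphically near `p`: on a neighbourhood `U` of `p` there are
quotients `A_j / B_j` of holomorphic functions, `B_j` vanishing identically on no nonempty open
set, such that at each point `q` of `M ∩ U` at which `A_j / B_j` is holomorphic (i.e. coincides
near `q` with a holomorphic function `H`), the value of `f_j` is that of `A_j / B_j`. -/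
def ExtendsMeromorphically {n N : ℕ} (M : Set (Fin n → ℂ)) (p : Fin n → ℂ)
    (f : (Fin n → ℂ) → (Fin N → ℂ)) : Prop :=
  ∃ (U : Set (Fin n → ℂ)) (A B : Fin N → (Fin n → ℂ) → ℂ), IsOpen U ∧ p ∈ U ∧
    ∀ j, DifferentiableOn ℂ (A j) U ∧ DifferentiableOn ℂ (B j) U ∧
      (∀ V ⊆ U, IsOpen V → V.Nonempty → ∃ x ∈ V, B j x ≠ 0) ∧
      ∀ q ∈ M ∩ U, ∀ V ⊆ U, IsOpen V → q ∈ V → ∀ H : (Fin n → ℂ) → ℂ,
        DifferentiableOn ℂ H V → (∀ x ∈ V, H x * B j x = A j x) → f q j = H q

/-- `f : M → ℂᴺ` extends holomorphically near `p`. -/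
def ExtendsHolomorphically {n N : ℕ} (M : Set (Fin n → ℂ)) (p : Fin n → ℂ)
    (f : (Fin n → ℂ) → (Fin N → ℂ)) : Prop :=
  ∃ (U : Set (Fin n → ℂ)) (F : (Fin n → ℂ) → (Fin N → ℂ)), IsOpen U ∧ p ∈ U ∧
    DifferentiableOn ℂ F U ∧ ∀ q ∈ M ∩ U, F q = f q

/-! ### The example -/

/-- The product of two Lewy hypersurfaces, `Im w₁ = |z₁|²`, `Im w₂ = |z₂|²`. -/
def M : Set (Fin 4 → ℂ) := {x | (x 1).im = normSq (x 0) ∧ (x 3).im = normSq (x 2)}

/-- The closed region above `M`. -/
def D : Set (Fin 4 → ℂ) := {x | normSq (x 0) ≤ (x 1).im ∧ normSq (x 2) ≤ (x 3).im}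

noncomputable def Q (x : Fin 4 → ℂ) : ℂ := x 1 + x 3 - I * x 1 * x 3
noncomputable def R (x : Fin 4 → ℂ) : ℂ := x 1 + x 3 + I * x 1 * x 3

noncomputable def num : Fin 5 → (Fin 4 → ℂ) → ℂ :=
  ![fun x => x 1 * R x, fun x => 2 * x 1 * x 3 * x 0, fun x => 2 * x 1 * x 1 * x 2,
    fun _ => 1, fun x => (Real.sqrt 2 : ℂ) * x 0]

noncomputable def den : Fin 5 → (Fin 4 → ℂ) → ℂ :=
  ![fun x => (I + x 1) * Q x, fun x => (I + x 1) * Q x, fun x => (I + x 1) * Q x,
    fun x => I + x 1, fun x => I + x 1]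

noncomputable def f (x : Fin 4 → ℂ) : Fin 5 → ℂ := fun j => num j x / den j x

lemma M_sub_D : M ⊆ D := fun _ hx => ⟨hx.1.ge, hx.2.ge⟩

lemma identity (x : Fin 4 → ℂ) :
    normSq (Q x) = normSq (R x) + 4 * (normSq (x 1) * (x 3).im + normSq (x 3) * (x 1).im) := by
  simp only [Q, R, normSq_apply, add_re, add_im, sub_re, sub_im, mul_re, mul_im, I_re, I_im]
  ring

lemma normSq_I_add (w : ℂ) : normSq (I + w) = normSq w + 1 + 2 * w.im := by
  simp only [normSq_apply, add_re, add_im, I_re, I_im]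
  ring

lemma Q_ne_of_pos {x : Fin 4 → ℂ} (h1 : 0 < (x 1).im) (h3 : 0 < (x 3).im) : Q x ≠ 0 := by
  intro h
  have h4 := identity x
  rw [h, map_zero] at h4
  have h5 : 0 < normSq (x 1) := normSq_pos.mpr (by rintro h0; rw [h0] at h1; simp at h1)
  have h6 := normSq_nonneg (R x)
  have h7 := normSq_nonneg (x 3)
  have h8 : 0 < normSq (x 1) * (x 3).im := mul_pos h5 h3
  have h9 : 0 ≤ normSq (x 3) * (x 1).im := mul_nonneg h7 h1.le
  linarith

lemma D_im {x : Fin 4 → ℂ} (hx : x ∈ D) : 0 ≤ (x 1).im ∧ 0 ≤ (x 3).im :=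
  ⟨(normSq_nonneg _).trans hx.1, (normSq_nonneg _).trans hx.2⟩

/-- on `D`, `Q` vanishes only at the origin -/
lemma eq_zero_of_Q {x : Fin 4 → ℂ} (hx : x ∈ D) (hQ : Q x = 0) : x = 0 := by
  have h4 := identity x
  rw [hQ, map_zero] at h4
  obtain ⟨h1, h3⟩ := D_im hx
  have h6 := normSq_nonneg (R x)
  have h8 : 0 ≤ normSq (x 1) * (x 3).im := mul_nonneg (normSq_nonneg _) h3
  have h9 : 0 ≤ normSq (x 3) * (x 1).im := mul_nonneg (normSq_nonneg _) h1
  have hR : R x = 0 := normSq_eq_zero.mp (by linarith)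
  have hs : x 1 + x 3 = 0 := by
    have : x 1 + x 3 = (Q x + R x) / 2 := by simp only [Q, R]; ring
    rw [this, hQ, hR]; simp
  have hp : x 1 * x 3 = 0 := by
    have : I * (x 1 * x 3) = (R x - Q x) / 2 := by simp only [Q, R]; ring
    rw [hQ, hR] at this
    have : I * (x 1 * x 3) = 0 := by rw [this]; simp
    exact (mul_eq_zero.mp this).resolve_left I_ne_zero
  have h10 : x 1 = 0 ∧ x 3 = 0 := by
    rcases mul_eq_zero.mp hp with h | h
    · exact ⟨h, by rw [h, zero_add] at hs; exact hs⟩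
    · exact ⟨by rw [h, add_zero] at hs; exact hs, h⟩
  have h0 : x 0 = 0 := by
    have := hx.1
    rw [h10.1] at this
    exact normSq_eq_zero.mp (le_antisymm (by simpa using this) (normSq_nonneg _))
  have h2 : x 2 = 0 := by
    have := hx.2
    rw [h10.2] at this
    exact normSq_eq_zero.mp (le_antisymm (by simpa using this) (normSq_nonneg _))
  funext i
  fin_cases i
  · exact h0
  · exact h10.1
  · exact h2
  · exact h10.2

lemma I_add_ne {w : ℂ} (h : 0 ≤ w.im) : I + w ≠ 0 := by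
  intro h0
  have := congrArg Complex.im h0
  simp at this
  linarith

lemma den_ne {x : Fin 4 → ℂ} (hx : x ∈ D) (hQ : Q x ≠ 0) (j : Fin 5) : den j x ≠ 0 := by
  have h := I_add_ne (D_im hx).1
  fin_cases j
  · exact mul_ne_zero h hQ
  · exact mul_ne_zero h hQ
  · exact mul_ne_zero h hQ
  · exact h
  · exact h

lemma contDiff_num (j : Fin 5) : ContDiff ℂ ∞ (num j) := by
  fin_cases j
  · change ContDiff ℂ ∞ fun x : Fin 4 → ℂ => x 1 * (x 1 + x 3 + I * x 1 * x 3)
    fun_prop
  · change ContDiff ℂ ∞ fun x : Fin 4 → ℂ => 2 * x 1 * x 3 * x 0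
    fun_prop
  · change ContDiff ℂ ∞ fun x : Fin 4 → ℂ => 2 * x 1 * x 1 * x 2
    fun_prop
  · change ContDiff ℂ ∞ fun x : Fin 4 → ℂ => (1 : ℂ)
    fun_prop
  · change ContDiff ℂ ∞ fun x : Fin 4 → ℂ => (Real.sqrt 2 : ℂ) * x 0
    fun_prop

lemma contDiff_den (j : Fin 5) : ContDiff ℂ ∞ (den j) := by
  have h : ContDiff ℂ ∞ fun x : Fin 4 → ℂ => (I + x 1) * (x 1 + x 3 - I * x 1 * x 3) := by fun_prop
  have h' : ContDiff ℂ ∞ fun x : Fin 4 → ℂ => I + x 1 := by fun_prop
  fin_cases j
  · exact h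
  · exact h
  · exact h
  · exact h'
  · exact h'

lemma contDiffAt_f (j : Fin 5) {x : Fin 4 → ℂ} (h : den j x ≠ 0) :
    ContDiffAt ℂ ∞ (fun y => f y j) x :=
  (contDiff_num j).contDiffAt.div (contDiff_den j).contDiffAt h

/-- the sum of the squares of the components is at most one above `M` -/
lemma sum_normSq {x : Fin 4 → ℂ} (hx : x ∈ D) (hQ : Q x ≠ 0) :
    ∑ j, normSq (f x j) =
      (normSq (x 1) * (normSq (R x) + 4 * (normSq (x 3) * normSq (x 0)
        + normSq (x 1) * normSq (x 2))) / normSq (Q x) + 1 + 2 * normSq (x 0)) /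
        (normSq (x 1) + 1 + 2 * (x 1).im) := by
  have h1 : normSq (Q x) ≠ 0 := (normSq_pos.mpr hQ).ne'
  have h2 : normSq (x 1) + 1 + 2 * (x 1).im ≠ 0 := by
    have := normSq_nonneg (x 1)
    have := (D_im hx).1
    positivity
  have h3 : normSq (2 : ℂ) = 4 := by rw [normSq_apply]; norm_num
  have h4 : normSq (Real.sqrt 2 : ℂ) = 2 := by
    rw [normSq_ofReal]; exact Real.mul_self_sqrt (by norm_num)
  simp only [f, num, den, Fin.sum_univ_five, Matrix.cons_val, normSq_div, normSq_mul,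
    normSq_I_add, h3, h4, map_one]
  field_simp
  ring

lemma sum_le {x : Fin 4 → ℂ} (hx : x ∈ D) (hQ : Q x ≠ 0) : ∑ j, normSq (f x j) ≤ 1 := by
  rw [sum_normSq hx hQ]
  have h1 : 0 < normSq (Q x) := normSq_pos.mpr hQ
  have h5 := normSq_nonneg (x 1)
  have h6 := (D_im hx).1
  have h7 := normSq_nonneg (x 3)
  rw [div_le_one (by positivity)]
  have h8 : normSq (x 1) * (normSq (R x) + 4 * (normSq (x 3) * normSq (x 0)
        + normSq (x 1) * normSq (x 2))) / normSq (Q x) ≤ normSq (x 1) := by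
    rw [div_le_iff₀ h1]
    apply mul_le_mul_of_nonneg_left _ h5
    rw [identity]
    have e1 := mul_le_mul_of_nonneg_left hx.1 h7
    have e2 := mul_le_mul_of_nonneg_left hx.2 h5
    linarith
  have := hx.1
  linarith

lemma sum_eq {x : Fin 4 → ℂ} (hx : x ∈ M) : ∑ j, normSq (f x j) = 1 := by
  by_cases hQ : Q x = 0
  · have h0 := eq_zero_of_Q (M_sub_D hx) hQ
    subst h0
    simp [f, num, den, Fin.sum_univ_five, Q]
  · rw [sum_normSq (M_sub_D hx) hQ]
    have h1 : 0 < normSq (Q x) := normSq_pos.mpr hQ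
    have h5 := normSq_nonneg (x 1)
    have h6 := (D_im (M_sub_D hx)).1
    have e : normSq (R x) + 4 * (normSq (x 3) * normSq (x 0) + normSq (x 1) * normSq (x 2)) =
        normSq (Q x) := by
      rw [identity, ← hx.1, ← hx.2]; ring
    rw [e, mul_div_assoc, div_self h1.ne', mul_one, ← hx.1]
    exact div_self (by positivity)

lemma norm_le_one {x : Fin 4 → ℂ} (hx : x ∈ D) (j : Fin 5) : ‖f x j‖ ≤ 1 := by
  have h : normSq (f x j) ≤ ∑ j, normSq (f x j) :=
    Finset.single_le_sum (fun i _ => normSq_nonneg (f x i)) (Finset.mem_univ j)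
  have h2 : ∑ j, normSq (f x j) ≤ 1 := by
    by_cases hQ : Q x = 0
    · have h0 := eq_zero_of_Q hx hQ
      subst h0
      exact (sum_eq (x := 0) ⟨by simp, by simp⟩).le
    · exact sum_le hx hQ
  rw [← Complex.sq_norm] at h
  have := norm_nonneg (f x j)
  nlinarith

/-- the first three components are bounded by `|w₁|` above `M` -/
lemma norm_le_w {x : Fin 4 → ℂ} (hx : x ∈ D) (j : Fin 5) (hj : j < 3) : ‖f x j‖ ≤ ‖x 1‖ := by
  by_cases hQ : Q x = 0
  · have h0 := eq_zero_of_Q hx hQ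
    subst h0
    have : f 0 j = 0 := by
      fin_cases j
      · simp [f, num, den]
      · simp [f, num, den]
      · simp [f, num, den]
      · simp at hj
      · simp at hj
    rw [this]; simp
  have h1 : 0 < normSq (Q x) := normSq_pos.mpr hQ
  have h5 := normSq_nonneg (x 1)
  have h6 := (D_im hx).1
  have h7 := normSq_nonneg (x 3)
  have h3 : normSq (2 : ℂ) = 4 := by rw [normSq_apply]; norm_num
  have key : normSq (R x) + 4 * (normSq (x 3) * normSq (x 0)
        + normSq (x 1) * normSq (x 2)) ≤ normSq (Q x) := by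
    rw [identity]
    have e1 := mul_le_mul_of_nonneg_left hx.1 h7
    have e2 := mul_le_mul_of_nonneg_left hx.2 h5
    linarith
  have p1 := normSq_nonneg (R x)
  have p2 := mul_nonneg h7 (normSq_nonneg (x 0))
  have p3 := mul_nonneg h5 (normSq_nonneg (x 2))
  have hk : ∀ a : ℂ, normSq a ≤ normSq (Q x) →
      ‖x 1 * a / ((I + x 1) * Q x)‖ ≤ ‖x 1‖ := by
    intro a ha
    have e1 : ‖a‖ ≤ ‖Q x‖ := by
      rw [← Complex.sq_norm, ← Complex.sq_norm] at ha
      exact (sq_le_sq₀ (norm_nonneg _) (norm_nonneg _)).mp ha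
    have e2 : 1 ≤ ‖I + x 1‖ := by
      have : 1 ≤ normSq (I + x 1) := by rw [normSq_I_add]; linarith
      rw [← Complex.sq_norm] at this
      nlinarith [norm_nonneg (I + x 1)]
    have e3 : 0 < ‖Q x‖ := norm_pos_iff.mpr hQ
    rw [norm_div, norm_mul, norm_mul, div_le_iff₀ (by positivity)]
    apply mul_le_mul_of_nonneg_left _ (norm_nonneg _)
    nlinarith
  fin_cases j
  · exact hk _ (by linarith)
  · have := hk (2 * x 3 * x 0) (by rw [normSq_mul, normSq_mul, h3]; linarith)
    have e : f x 1 = x 1 * (2 * x 3 * x 0) / ((I + x 1) * Q x) := by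
      simp only [f, num, den, Matrix.cons_val]; ring_nf
    rw [← e] at this
    exact this
  · have := hk (2 * x 1 * x 2) (by rw [normSq_mul, normSq_mul, h3]; linarith)
    have e : f x 2 = x 1 * (2 * x 1 * x 2) / ((I + x 1) * Q x) := by
      simp only [f, num, den, Matrix.cons_val]; ring_nf
    rw [← e] at this
    exact this
  · simp at hj
  · simp at hj

lemma continuousOn_f (j : Fin 5) : ContinuousOn (fun x => f x j) D := by
  intro x hx
  by_cases hQ : Q x = 0
  · have h0 := eq_zero_of_Q hx hQ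
    subst h0
    by_cases hj : j < 3
    · have h0 : f 0 j = 0 := by
        have := norm_le_w hx j hj
        simpa using this
      change Filter.Tendsto (fun x => f x j) (𝓝[D] 0) (𝓝 (f 0 j))
      rw [h0]
      have h1 : Filter.Tendsto (fun x : Fin 4 → ℂ => ‖x 1‖) (𝓝[D] 0) (𝓝 0) := by
        have : ContinuousAt (fun x : Fin 4 → ℂ => ‖x 1‖) 0 :=
          (continuous_apply 1).norm.continuousAt
        have h2 := this.tendsto
        simp only [Pi.zero_apply, norm_zero] at h2
        exact h2.mono_left nhdsWithin_le_nhds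
      refine squeeze_zero_norm' ?_ h1
      filter_upwards [self_mem_nhdsWithin] with y hy
      exact norm_le_w hy j hj
    · have hd : den j 0 ≠ 0 := by
        fin_cases j
        · simp at hj
        · simp at hj
        · simp at hj
        · simp [den]
        · simp [den]
      exact (contDiffAt_f j hd).continuousAt.continuousWithinAt
  · exact (contDiffAt_f j (den_ne hx hQ j)).continuousAt.continuousWithinAt

/-! ### `M` is a generic minimal real-analytic submanifold -/

/-- the defining function of `M` -/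
noncomputable def rho (x : Fin 4 → ℂ) : Fin 2 → ℝ :=
  ![(x 1).im - normSq (x 0), (x 3).im - normSq (x 2)]

lemma contDiff_coord (i : Fin 4) : ContDiff ℝ ω fun x : Fin 4 → ℂ => x i :=
  (ContinuousLinearMap.proj (R := ℝ) (φ := fun _ : Fin 4 => ℂ) i).contDiff

lemma contDiff_re (i : Fin 4) : ContDiff ℝ ω fun x : Fin 4 → ℂ => (x i).re :=
  reCLM.contDiff.comp (contDiff_coord i)

lemma contDiff_im (i : Fin 4) : ContDiff ℝ ω fun x : Fin 4 → ℂ => (x i).im :=
  imCLM.contDiff.comp (contDiff_coord i)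

lemma contDiff_rho : ContDiff ℝ ω rho := by
  rw [contDiff_pi]
  intro i
  fin_cases i
  · change ContDiff ℝ ω fun x : Fin 4 → ℂ => (x 1).im - normSq (x 0)
    simp only [normSq_apply]
    exact (contDiff_im 1).sub
      (((contDiff_re 0).mul (contDiff_re 0)).add ((contDiff_im 0).mul (contDiff_im 0)))
  · change ContDiff ℝ ω fun x : Fin 4 → ℂ => (x 3).im - normSq (x 2)
    simp only [normSq_apply]
    exact (contDiff_im 3).sub
      (((contDiff_re 2).mul (contDiff_re 2)).add ((contDiff_im 2).mul (contDiff_im 2)))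

/-- vertical vectors -/
noncomputable def vert (a : Fin 2 → ℝ) : Fin 4 → ℂ := ![0, I * a 0, 0, I * a 1]

lemma rho_vert (x : Fin 4 → ℂ) (a : Fin 2 → ℝ) (t : ℝ) :
    rho (x + t • vert a) = rho x + t • a := by
  funext i
  fin_cases i
  · simp [rho, vert]; ring
  · simp [rho, vert]; ring

lemma fderiv_rho_vert (x : Fin 4 → ℂ) (a : Fin 2 → ℝ) : fderiv ℝ rho x (vert a) = a := by
  have h1 : HasFDerivAt rho (fderiv ℝ rho x) x :=
    (contDiff_rho.differentiable (by simp)).differentiableAt.hasFDerivAt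
  have h2 := h1.hasLineDerivAt (vert a)
  have h3 : HasLineDerivAt ℝ rho a x (vert a) := by
    change HasDerivAt (fun t : ℝ => rho (x + t • vert a)) a 0
    simp only [rho_vert]
    have := ((hasDerivAt_id (0 : ℝ)).smul_const a).const_add (rho x)
    simpa using this
  exact h2.unique h3

lemma isSubmfd_M : IsSubmfd ω 6 M := by
  intro q _
  refine ⟨2, Set.univ, rho, by norm_num, isOpen_univ, Set.mem_univ _, contDiff_rho.contDiffOn,
    fun x _ a => ⟨vert a, fderiv_rho_vert x a⟩, fun x _ => ?_⟩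
  constructor
  · intro hx
    funext i
    fin_cases i
    · exact sub_eq_zero.mpr hx.1
    · exact sub_eq_zero.mpr hx.2
  · intro hx
    exact ⟨sub_eq_zero.mp (congrFun hx 0), sub_eq_zero.mp (congrFun hx 1)⟩

/-- the tangent vectors of `M` at `q` -/
noncomputable def tv (q : Fin 4 → ℂ) (α β : ℂ) (σ τ : ℝ) : Fin 4 → ℂ :=
  ![α, σ + 2 * I * ((q 0).re * α.re + (q 0).im * α.im : ℝ), β,
    τ + 2 * I * ((q 2).re * β.re + (q 2).im * β.im : ℝ)]

lemma tv_mem {q : Fin 4 → ℂ} (hq : q ∈ M) (α β : ℂ) (σ τ : ℝ) : tv q α β σ τ ∈ tangent M q := by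
  refine ⟨fun t : ℝ => q + t • tv q α β σ τ +
    (t ^ 2) • ![0, I * (normSq α : ℝ), 0, I * (normSq β : ℝ)], by simp, ?_, ?_⟩
  · have h1 := ((hasDerivAt_id (0 : ℝ)).smul_const (tv q α β σ τ)).const_add q
    have h2 := ((hasDerivAt_pow 2 (0 : ℝ)).smul_const
      (![0, I * (normSq α : ℝ), 0, I * (normSq β : ℝ)] : Fin 4 → ℂ))
    have h3 := h1.add h2
    refine h3.congr_deriv ?_
    simp
  · refine Filter.Eventually.of_forall fun t => ?_
    have e1 := hq.1
    have e2 := hq.2
    simp only [normSq_apply] at e1 e2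
    constructor
    · change (q 1 + t • ((σ : ℂ) + 2 * I * ((q 0).re * α.re + (q 0).im * α.im : ℝ)) +
        t ^ 2 • (I * (normSq α : ℝ))).im = normSq (q 0 + t • α + t ^ 2 • (0 : ℂ))
      simp [normSq_apply, pow_two, e1]
      ring
    · change (q 3 + t • ((τ : ℂ) + 2 * I * ((q 2).re * β.re + (q 2).im * β.im : ℝ)) +
        t ^ 2 • (I * (normSq β : ℝ))).im = normSq (q 2 + t • β + t ^ 2 • (0 : ℂ))
      simp [normSq_apply, pow_two, e2]
      ring

lemma isGeneric_M : IsGeneric M := by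
  intro q hq v
  refine ⟨tv q (v 0) (v 2) (v 1).re (v 3).re, tv_mem hq _ _ _ _,
    tv q 0 0 ((v 1).im - 2 * ((q 0).re * (v 0).re + (q 0).im * (v 0).im))
      ((v 3).im - 2 * ((q 2).re * (v 2).re + (q 2).im * (v 2).im)), tv_mem hq _ _ _ _, ?_⟩
  funext i
  fin_cases i
  · simp [tv]
  · apply Complex.ext <;> simp [tv]
  · simp [tv]
  · apply Complex.ext <;> simp [tv]

/-- the four real vector fields spanning the complex tangent spaces of `M` -/
noncomputable def X1 (q : Fin 4 → ℂ) : Fin 4 → ℂ := ![1, 2 * I * (starRingEnd ℂ) (q 0), 0, 0]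
noncomputable def X2 (q : Fin 4 → ℂ) : Fin 4 → ℂ := ![0, 0, 1, 2 * I * (starRingEnd ℂ) (q 2)]

lemma X1_mem {q : Fin 4 → ℂ} (hq : q ∈ M) : X1 q ∈ tangent M q := by
  have := tv_mem hq 1 0 (2 * (q 0).im) 0
  have e : tv q 1 0 (2 * (q 0).im) 0 = X1 q := by
    funext i
    fin_cases i
    · simp [tv, X1]
    · apply Complex.ext <;> simp [tv, X1]
    · simp [tv, X1]
    · simp [tv, X1]
  rwa [e] at this

lemma IX1_mem {q : Fin 4 → ℂ} (hq : q ∈ M) : I • X1 q ∈ tangent M q := by
  have := tv_mem hq I 0 (-2 * (q 0).re) 0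
  have e : tv q I 0 (-2 * (q 0).re) 0 = I • X1 q := by
    funext i
    fin_cases i
    · simp [tv, X1]
    · apply Complex.ext <;> simp [tv, X1]
    · simp [tv, X1]
    · simp [tv, X1]
  rwa [e] at this

lemma X2_mem {q : Fin 4 → ℂ} (hq : q ∈ M) : X2 q ∈ tangent M q := by
  have := tv_mem hq 0 1 0 (2 * (q 2).im)
  have e : tv q 0 1 0 (2 * (q 2).im) = X2 q := by
    funext i
    fin_cases i
    · simp [tv, X2]
    · simp [tv, X2]
    · simp [tv, X2]
    · apply Complex.ext <;> simp [tv, X2]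
  rwa [e] at this

lemma IX2_mem {q : Fin 4 → ℂ} (hq : q ∈ M) : I • X2 q ∈ tangent M q := by
  have := tv_mem hq 0 I 0 (-2 * (q 2).re)
  have e : tv q 0 I 0 (-2 * (q 2).re) = I • X2 q := by
    funext i
    fin_cases i
    · simp [tv, X2]
    · simp [tv, X2]
    · simp [tv, X2]
    · apply Complex.ext <;> simp [tv, X2]
  rwa [e] at this

/-- If `A + L q` and `B + K q` are affine fields, tangent to `S` at each point of `S` near `0`,
the bracket at `0` is annihilated by the differential of each defining function. -/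
lemma bracket {c : ℕ} {S U : Set (Fin 4 → ℂ)} {ρ : (Fin 4 → ℂ) → (Fin c → ℝ)}
    (hU : IsOpen U) (h0 : (0 : Fin 4 → ℂ) ∈ U) (hρ : ContDiffOn ℝ 2 ρ U)
    (hS : ∀ x ∈ U, x ∈ S ↔ ρ x = 0)
    (A B : Fin 4 → ℂ) (L K : (Fin 4 → ℂ) →L[ℝ] (Fin 4 → ℂ))
    (hA : ∀ q ∈ S, A + L q ∈ tangent S q) (hB : ∀ q ∈ S, B + K q ∈ tangent S q)
    (h0S : (0 : Fin 4 → ℂ) ∈ S) :
    fderiv ℝ ρ 0 (L B - K A) = 0 := by
  have hat : ContDiffAt ℝ 2 ρ 0 := hρ.contDiffAt (hU.mem_nhds h0)
  have hdiff : ∀ x ∈ U, DifferentiableAt ℝ ρ x := fun x hx =>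
    (hρ.contDiffAt (hU.mem_nhds hx)).differentiableAt (by norm_num)
  -- tangent vectors are killed by the differential
  have kill : ∀ q ∈ S, q ∈ U → ∀ v ∈ tangent S q, fderiv ℝ ρ q v = 0 := by
    rintro q hq hqU v ⟨γ, hγ0, hγ, hev⟩
    have h1 : HasDerivAt (fun t => ρ (γ t)) (fderiv ℝ ρ q v) 0 := by
      have := (hdiff q hqU).hasFDerivAt
      rw [← hγ0] at this
      have h2 := this.comp_hasDerivAt (0 : ℝ) hγ
      rw [hγ0] at h2
      exact h2
    have h2 : HasDerivAt (fun t => ρ (γ t)) 0 0 := by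
      have h3 : (fun t => ρ (γ t)) =ᶠ[𝓝 0] fun _ => 0 := by
        have h4 : ∀ᶠ t in 𝓝 (0 : ℝ), γ t ∈ U :=
          hγ.continuousAt.eventually (by rw [hγ0]; exact hU.mem_nhds hqU)
        filter_upwards [hev, h4] with t h5 h6
        exact (hS _ h6).mp h5
      exact (hasDerivAt_const (0 : ℝ) (0 : Fin c → ℝ)).congr_of_eventuallyEq h3
    exact h1.unique h2
  have hfd : HasFDerivAt (fderiv ℝ ρ) (fderiv ℝ (fderiv ℝ ρ) 0) 0 :=
    ((hat.fderiv_right (m := 1) (by norm_num)).differentiableAt (by norm_num)).hasFDerivAt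
  -- derivative of `q ↦ dρ_q (A + L q)` along a tangent vector vanishes
  have key : ∀ (A : Fin 4 → ℂ) (L : (Fin 4 → ℂ) →L[ℝ] (Fin 4 → ℂ)),
      (∀ q ∈ S, A + L q ∈ tangent S q) → ∀ v ∈ tangent S 0,
      fderiv ℝ (fderiv ℝ ρ) 0 v A + fderiv ℝ ρ 0 (L v) = 0 := by
    rintro A L hA v ⟨γ, hγ0, hγ, hev⟩
    have h1 : HasFDerivAt (fun q => fderiv ℝ ρ q (A + L q))
        ((fderiv ℝ ρ 0).comp L + (fderiv ℝ (fderiv ℝ ρ) 0).flip (A + L 0)) 0 :=
      hfd.clm_apply (L.hasFDerivAt.const_add A)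
    have h1' : HasDerivAt (fun t => fderiv ℝ ρ (γ t) (A + L (γ t)))
        (((fderiv ℝ ρ 0).comp L + (fderiv ℝ (fderiv ℝ ρ) 0).flip (A + L 0)) v) 0 := by
      rw [← hγ0] at h1
      have := h1.comp_hasDerivAt (0 : ℝ) hγ
      rw [hγ0] at this
      exact this
    have h2 : HasDerivAt (fun t => fderiv ℝ ρ (γ t) (A + L (γ t))) 0 0 := by
      have h3 : (fun t => fderiv ℝ ρ (γ t) (A + L (γ t))) =ᶠ[𝓝 0] fun _ => 0 := by
        have h4 : ∀ᶠ t in 𝓝 (0 : ℝ), γ t ∈ U :=
          hγ.continuousAt.eventually (by rw [hγ0]; exact hU.mem_nhds h0)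
        filter_upwards [hev, h4] with t h5 h6
        exact kill _ h5 h6 _ (hA _ h5)
      exact (hasDerivAt_const (0 : ℝ) (0 : Fin c → ℝ)).congr_of_eventuallyEq h3
    have h5 := h1'.unique h2
    have h6 : ((fderiv ℝ ρ 0).comp L + (fderiv ℝ (fderiv ℝ ρ) 0).flip (A + L 0)) v =
        fderiv ℝ ρ 0 (L v) + fderiv ℝ (fderiv ℝ ρ) 0 v (A + L 0) := rfl
    rw [h6, map_zero, add_zero] at h5
    rw [add_comm]
    exact h5
  have hA0 : A ∈ tangent S 0 := by simpa using hA 0 h0S
  have hB0 : B ∈ tangent S 0 := by simpa using hB 0 h0S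
  have e1 := key A L hA B hB0
  have e2 := key B K hB A hA0
  have hsymm : IsSymmSndFDerivAt ℝ ρ 0 := hat.isSymmSndFDerivAt (by simp)
  have e3 := hsymm A B
  rw [map_sub, sub_eq_zero]
  rw [← e3] at e1
  have := e1.trans e2.symm
  exact add_left_cancel this

/-- the linear part of `X1` -/
noncomputable def L1 : (Fin 4 → ℂ) →L[ℝ] (Fin 4 → ℂ) :=
  ContinuousLinearMap.pi ![0, (2 * I : ℂ) • (conjCLE.toContinuousLinearMap.comp
    (ContinuousLinearMap.proj (R := ℝ) (φ := fun _ : Fin 4 => ℂ) 0)), 0, 0]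

noncomputable def L2 : (Fin 4 → ℂ) →L[ℝ] (Fin 4 → ℂ) :=
  ContinuousLinearMap.pi ![0, 0, 0, (2 * I : ℂ) • (conjCLE.toContinuousLinearMap.comp
    (ContinuousLinearMap.proj (R := ℝ) (φ := fun _ : Fin 4 => ℂ) 2))]

lemma L1_apply (q : Fin 4 → ℂ) : L1 q = ![0, 2 * I * (starRingEnd ℂ) (q 0), 0, 0] := by
  funext i
  fin_cases i <;> simp [L1]

lemma L2_apply (q : Fin 4 → ℂ) : L2 q = ![0, 0, 0, 2 * I * (starRingEnd ℂ) (q 2)] := by
  funext i
  fin_cases i <;> simp [L2]

lemma X1_eq (q : Fin 4 → ℂ) : X1 q = ![1, 0, 0, 0] + L1 q := by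
  rw [L1_apply]
  funext i
  fin_cases i <;> simp [X1]

lemma X2_eq (q : Fin 4 → ℂ) : X2 q = ![0, 0, 1, 0] + L2 q := by
  rw [L2_apply]
  funext i
  fin_cases i <;> simp [X2]

/-- multiplication by `i` as a real linear map -/
noncomputable def J : (Fin 4 → ℂ) →L[ℝ] (Fin 4 → ℂ) :=
  (I • ContinuousLinearMap.id ℂ (Fin 4 → ℂ)).restrictScalars ℝ

lemma J_apply (q : Fin 4 → ℂ) : J q = I • q := rfl

lemma isMinimal_M : IsMinimalAt 6 M 0 := by
  intro d' S hd' hSM h0S hS hH
  obtain ⟨c, U, ρ, hdc, hU, h0U, hρ, hsurj, hzero⟩ := hS 0 h0S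
  -- the fields are tangent to `S`
  have t1 : ∀ q ∈ S, (![1, 0, 0, 0] : Fin 4 → ℂ) + L1 q ∈ tangent S q := fun q hq => by
    rw [← X1_eq]
    exact hH q hq ⟨X1_mem (hSM hq), IX1_mem (hSM hq)⟩
  have t1' : ∀ q ∈ S, (I • ![1, 0, 0, 0] : Fin 4 → ℂ) + (J.comp L1) q ∈ tangent S q :=
    fun q hq => by
    have e : (I • ![1, 0, 0, 0] : Fin 4 → ℂ) + (J.comp L1) q = I • X1 q := by
      rw [X1_eq, smul_add]; rfl
    rw [e]
    refine hH q hq ⟨IX1_mem (hSM hq), ?_⟩
    have := tv_mem (hSM hq) (-1) 0 (-(2 * (q 0).im)) 0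
    have e2 : tv q (-1) 0 (-(2 * (q 0).im)) 0 = I • I • X1 q := by
      rw [smul_smul, I_mul_I]
      funext i
      fin_cases i
      · simp [tv, X1]
      · apply Complex.ext <;> simp [tv, X1]
      · simp [tv, X1]
      · simp [tv, X1]
    rwa [e2] at this
  have t2 : ∀ q ∈ S, (![0, 0, 1, 0] : Fin 4 → ℂ) + L2 q ∈ tangent S q := fun q hq => by
    rw [← X2_eq]
    exact hH q hq ⟨X2_mem (hSM hq), IX2_mem (hSM hq)⟩
  have t2' : ∀ q ∈ S, (I • ![0, 0, 1, 0] : Fin 4 → ℂ) + (J.comp L2) q ∈ tangent S q :=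
    fun q hq => by
    have e : (I • ![0, 0, 1, 0] : Fin 4 → ℂ) + (J.comp L2) q = I • X2 q := by
      rw [X2_eq, smul_add]; rfl
    rw [e]
    refine hH q hq ⟨IX2_mem (hSM hq), ?_⟩
    have := tv_mem (hSM hq) 0 (-1) 0 (-(2 * (q 2).im))
    have e2 : tv q 0 (-1) 0 (-(2 * (q 2).im)) = I • I • X2 q := by
      rw [smul_smul, I_mul_I]
      funext i
      fin_cases i
      · simp [tv, X2]
      · simp [tv, X2]
      · simp [tv, X2]
      · apply Complex.ext <;> simp [tv, X2]
    rwa [e2] at this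
  -- vectors annihilated by `dρ_0`
  have b1 := bracket hU h0U hρ hzero _ _ _ _ t1 t1' h0S
  have b2 := bracket hU h0U hρ hzero _ _ _ _ t2 t2' h0S
  have hdiff : DifferentiableAt ℝ ρ 0 :=
    (hρ.contDiffAt (hU.mem_nhds h0U)).differentiableAt (by norm_num)
  have kill : ∀ v ∈ tangent S 0, fderiv ℝ ρ 0 v = 0 := by
    rintro v ⟨γ, hγ0, hγ, hev⟩
    have h1 : HasDerivAt (fun t => ρ (γ t)) (fderiv ℝ ρ 0 v) 0 := by
      have := hdiff.hasFDerivAt
      rw [← hγ0] at this
      have h2 := this.comp_hasDerivAt (0 : ℝ) hγ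
      rw [hγ0] at h2
      exact h2
    have h2 : HasDerivAt (fun t => ρ (γ t)) 0 0 := by
      have h3 : (fun t => ρ (γ t)) =ᶠ[𝓝 0] fun _ => 0 := by
        have h4 : ∀ᶠ t in 𝓝 (0 : ℝ), γ t ∈ U :=
          hγ.continuousAt.eventually (by rw [hγ0]; exact hU.mem_nhds h0U)
        filter_upwards [hev, h4] with t h5 h6
        exact (hzero _ h6).mp h5
      exact (hasDerivAt_const (0 : ℝ) (0 : Fin c → ℝ)).congr_of_eventuallyEq h3
    exact h1.unique h2
  have k1 := kill _ (t1 0 h0S)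
  have k1' := kill _ (t1' 0 h0S)
  have k2 := kill _ (t2 0 h0S)
  have k2' := kill _ (t2' 0 h0S)
  rw [map_zero, add_zero] at k1 k1' k2 k2'
  -- so `dρ_0` factors through the vertical directions
  let T : (Fin 2 → ℝ) →ₗ[ℝ] (Fin c → ℝ) :=
    { toFun := fun a => fderiv ℝ ρ 0 (vert a)
      map_add' := fun a b => by
        rw [← map_add]; congr 1
        funext i
        fin_cases i
        · simp [vert]
        · simp [vert]; ring
        · simp [vert]
        · simp [vert]; ring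
      map_smul' := fun r a => by
        rw [RingHom.id_apply, ← map_smul]; congr 1
        funext i
        fin_cases i
        · simp [vert]
        · simp [vert]; ring
        · simp [vert]
        · simp [vert]; ring }
  have hT : Function.Surjective T := by
    intro y
    obtain ⟨v, hv⟩ := hsurj 0 h0U y
    refine ⟨![(v 1).im, (v 3).im], ?_⟩
    change fderiv ℝ ρ 0 (vert ![(v 1).im, (v 3).im]) = y
    have e : v = vert ![(v 1).im, (v 3).im]
        + (v 0).re • (![1, 0, 0, 0] : Fin 4 → ℂ) + (v 0).im • (I • ![1, 0, 0, 0] : Fin 4 → ℂ)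
        + (v 2).re • (![0, 0, 1, 0] : Fin 4 → ℂ) + (v 2).im • (I • ![0, 0, 1, 0] : Fin 4 → ℂ)
        + ((v 1).re / 4) • (L1 (I • ![1, 0, 0, 0]) - (J.comp L1) ![1, 0, 0, 0])
        + ((v 3).re / 4) • (L2 (I • ![0, 0, 1, 0]) - (J.comp L2) ![0, 0, 1, 0]) := by
      have e1 : (J.comp L1) ![1, 0, 0, 0] = I • L1 ![1, 0, 0, 0] := rfl
      have e2 : (J.comp L2) ![0, 0, 1, 0] = I • L2 ![0, 0, 1, 0] := rfl
      rw [e1, e2, L1_apply, L1_apply, L2_apply, L2_apply]
      funext i
      fin_cases i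
      · apply Complex.ext <;> simp [vert]
      · apply Complex.ext <;> simp [vert]; ring
      · apply Complex.ext <;> simp [vert]
      · apply Complex.ext <;> simp [vert]; ring
    rw [← hv]
    conv_rhs => rw [e]
    simp only [map_add, map_smul, k1, k1', k2, k2', b1, b2, smul_zero, add_zero]
  have hfin := LinearMap.finrank_le_finrank_of_surjective hT
  simp at hfin
  omega

/-! ### `f` is CR -/

lemma int_fderiv_zero {d : ℕ} (h : (Fin d → ℝ) → ℂ) (hh : ContDiff ℝ 1 h)
    (hc : HasCompactSupport h) (v : Fin d → ℝ) : ∫ x, fderiv ℝ h x v = 0 := by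
  have hint' : Integrable (fun x => fderiv ℝ h x v) :=
    ((hh.continuous_fderiv (by norm_num)).clm_apply continuous_const).integrable_of_hasCompactSupport
      (hc.fderiv_apply ℝ v)
  have := integral_mul_fderiv_eq_neg_fderiv_mul_of_integrable (μ := volume)
    (f := fun _ => (1 : ℂ)) (g := h) (v := v) (by simp) (by simpa using hint')
    (by simpa using hh.continuous.integrable_of_hasCompactSupport hc)
    (fun _ _ => differentiableAt_const _) (fun x _ => (hh.differentiable (by norm_num)) x)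
  simpa using this

/-- the upward shift -/
noncomputable def up (ε : ℝ) : Fin 4 → ℂ := ![0, ε * I, 0, ε * I]

lemma add_up_mem {x : Fin 4 → ℂ} (hx : x ∈ M) {ε : ℝ} (hε : 0 ≤ ε) : x + up ε ∈ D := by
  constructor
  · change normSq (x 0 + 0) ≤ (x 1 + ε * I).im
    rw [add_zero, ← hx.1]
    simp [hε]
  · change normSq (x 2 + 0) ≤ (x 3 + ε * I).im
    rw [add_zero, ← hx.2]
    simp [hε]

lemma Q_add_up {x : Fin 4 → ℂ} (hx : x ∈ M) {ε : ℝ} (hε : 0 < ε) : Q (x + up ε) ≠ 0 := by
  apply Q_ne_of_pos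
  · change 0 < (x 1 + ε * I).im
    have := normSq_nonneg (x 0)
    rw [← hx.1] at this
    simp
    linarith
  · change 0 < (x 3 + ε * I).im
    have := normSq_nonneg (x 2)
    rw [← hx.2] at this
    simp
    linarith

lemma isCR_f (j : Fin 5) : IsCR 6 M (fun x => f x j) := by
  intro Ω Φ X φ hΩ hΦ _ _ hM hX hXΦ hφ hφc hsupp
  change ∫ x, f (Φ x) j * ∑ k, fderiv ℝ (fun y => X y k * φ y) x (Pi.single k 1) = 0
  -- the products `X_k φ` are smooth with compact support
  have hout : ∀ x, x ∉ tsupport φ → φ =ᶠ[𝓝 x] 0 := fun x hx => notMem_tsupport_iff_eventuallyEq.mp hx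
  have glob : ∀ g : (Fin 6 → ℝ) → ℂ, ContDiffOn ℝ ∞ g Ω → ContDiff ℝ ∞ (fun y => g y * φ y) := by
    intro g hg
    rw [contDiff_iff_contDiffAt]
    intro x
    by_cases hx : x ∈ tsupport φ
    · exact (hg.contDiffAt (hΩ.mem_nhds (hsupp hx))).mul hφ.contDiffAt
    · have : (fun y => g y * φ y) =ᶠ[𝓝 x] fun _ => 0 := by
        filter_upwards [hout x hx] with y hy
        rw [hy]; simp
      exact contDiffAt_const.congr_of_eventuallyEq this
  have hXk : ∀ k, ContDiffOn ℝ ∞ (fun y => X y k) Ω := fun k => by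
    exact (contDiff_apply ℝ ℂ k).comp_contDiffOn hX
  set div : (Fin 6 → ℝ) → ℂ := fun x =>
    ∑ k, fderiv ℝ (fun y => X y k * φ y) x (Pi.single k 1) with hdiv
  have hdivc : Continuous div := by
    apply continuous_finsetSum
    intro k _
    exact ((glob _ (hXk k)).continuous_fderiv (by norm_num)).clm_apply continuous_const
  have hdiv0 : ∀ x, x ∉ tsupport φ → div x = 0 := by
    intro x hx
    apply Finset.sum_eq_zero
    intro k _
    have : (fun y => X y k * φ y) =ᶠ[𝓝 x] fun _ => 0 := by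
      filter_upwards [hout x hx] with y hy
      rw [hy]; simp
    rw [this.fderiv_eq]
    simp
  have hdivs : HasCompactSupport div := by
    apply HasCompactSupport.of_support_subset_isCompact hφc
    intro x hx
    by_contra hcon
    exact hx (hdiv0 x hcon)
  have hdivint : Integrable div := hdivc.integrable_of_hasCompactSupport hdivs
  -- the integral with the shifted function vanishes
  have shifted : ∀ ε : ℝ, 0 < ε → Continuous (fun x => f (Φ x + up ε) j * div x) ∧
      ∫ x, f (Φ x + up ε) j * div x = 0 := by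
    intro ε hε
    set G : (Fin 6 → ℝ) → ℂ := fun x => f (Φ x + up ε) j with hG
    have hfat : ∀ x ∈ Ω, ContDiffAt ℂ ∞ (fun y => f y j) (Φ x + up ε) := fun x hx =>
      contDiffAt_f j (den_ne (add_up_mem (hM hx) hε.le) (Q_add_up (hM hx) hε) j)
    have hGs : ContDiffOn ℝ ∞ G Ω := by
      intro x hx
      have h1 : ContDiffAt ℝ ∞ (fun y => f y j) (Φ x + up ε) := (hfat x hx).restrict_scalars ℝ
      have h2 : ContDiffAt ℝ ∞ (fun x => Φ x + up ε) x :=
        (hΦ.contDiffAt (hΩ.mem_nhds hx)).add contDiffAt_const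
      exact (h1.comp x h2).contDiffWithinAt
    have hsum : ∀ x, ∑ k, fderiv ℝ (fun y => G y * X y k * φ y) x (Pi.single k 1) =
        G x * div x := by
      intro x
      by_cases hx : x ∈ tsupport φ
      · have hxΩ := hsupp hx
        have hΦd : DifferentiableAt ℝ Φ x :=
          (hΦ.contDiffAt (hΩ.mem_nhds hxΩ)).differentiableAt (by norm_num)
        have hGd : DifferentiableAt ℝ G x :=
          (hGs.contDiffAt (hΩ.mem_nhds hxΩ)).differentiableAt (by norm_num)
        have hfd : HasFDerivAt (𝕜 := ℂ) (fun y => f y j)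
            (fderiv ℂ (fun y => f y j) (Φ x + up ε)) (Φ x + up ε) :=
          ((hfat x hxΩ).differentiableAt (by norm_num)).hasFDerivAt
        have hGder : ∀ v, fderiv ℝ G x v =
            fderiv ℂ (fun y => f y j) (Φ x + up ε) (fderiv ℝ Φ x v) := by
          intro v
          have h0 : HasFDerivAt (fun y => f y j)
              ((fderiv ℂ (fun y => f y j) (Φ x + up ε)).restrictScalars ℝ) (Φ x + up ε) :=
            hfd.restrictScalars ℝ
          have h1 : HasFDerivAt G (((fderiv ℂ (fun y => f y j) (Φ x + up ε)).restrictScalars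
              ℝ).comp (fderiv ℝ Φ x)) x :=
            HasFDerivAt.comp (g := fun y => f y j) (f := fun x => Φ x + up ε) x h0
              (hΦd.hasFDerivAt.add_const (up ε))
          rw [h1.fderiv]; rfl
        have h3 : ∀ k, fderiv ℝ (fun y => G y * X y k * φ y) x (Pi.single k 1) =
            G x * fderiv ℝ (fun y => X y k * φ y) x (Pi.single k 1) +
              φ x * (X x k * fderiv ℝ G x (Pi.single k 1)) := by
          intro k
          have h4 : DifferentiableAt ℝ (fun y => X y k * φ y) x :=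
            (glob _ (hXk k)).differentiable (by norm_num) x
          have h5 : (fun y => G y * X y k * φ y) = fun y => G y * (X y k * φ y) := by
            funext y; ring
          rw [h5]
          have h6 := (hGd.hasFDerivAt.mul h4.hasFDerivAt).fderiv
          have h7 : fderiv ℝ (fun y => G y * (X y k * φ y)) x =
            G x • fderiv ℝ (fun y => X y k * φ y) x + (X x k * φ x) • fderiv ℝ G x := h6
          rw [h7, add_apply, smul_apply, smul_apply, smul_eq_mul, smul_eq_mul]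
          ring
        simp only [h3]
        rw [Finset.sum_add_distrib, ← Finset.mul_sum, ← Finset.mul_sum]
        have h8 : ∑ k, X x k * fderiv ℝ G x (Pi.single k 1) = 0 := by
          have h9 := congrArg (fderiv ℂ (fun y => f y j) (Φ x + up ε)) (hXΦ x hxΩ)
          rw [map_sum, map_zero] at h9
          rw [← h9]
          apply Finset.sum_congr rfl
          intro k _
          rw [map_smul, hGder]; rfl
        rw [h8]; ring
      · rw [hdiv0 x hx, mul_zero]
        apply Finset.sum_eq_zero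
        intro k _
        have : (fun y => G y * X y k * φ y) =ᶠ[𝓝 x] fun _ => 0 := by
          filter_upwards [hout x hx] with y hy
          rw [hy]; simp
        rw [this.fderiv_eq]
        simp
    have hGX : ∀ k, ContDiff ℝ ∞ (fun y => G y * X y k * φ y) := fun k =>
      glob _ (hGs.mul (hXk k))
    have hGXs : ∀ k, HasCompactSupport (fun y => G y * X y k * φ y) := fun k => hφc.mul_left
    have hGXi : ∀ k, Integrable fun x => fderiv ℝ (fun y => G y * X y k * φ y) x (Pi.single k 1) :=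
      fun k => (((hGX k).continuous_fderiv (by norm_num)).clm_apply
        continuous_const).integrable_of_hasCompactSupport ((hGXs k).fderiv_apply ℝ _)
    constructor
    · have h1 : (fun x => G x * div x) =
          fun x => ∑ k, fderiv ℝ (fun y => G y * X y k * φ y) x (Pi.single k 1) := by
        funext x; exact (hsum x).symm
      change Continuous fun x => G x * div x
      rw [h1]
      apply continuous_finsetSum
      intro k _
      exact ((hGX k).continuous_fderiv (by norm_num)).clm_apply continuous_const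
    calc ∫ x, G x * div x
        = ∫ x, ∑ k, fderiv ℝ (fun y => G y * X y k * φ y) x (Pi.single k 1) := by
          simp only [hsum]
      _ = ∑ k, ∫ x, fderiv ℝ (fun y => G y * X y k * φ y) x (Pi.single k 1) :=
          integral_finsetSum _ fun k _ => hGXi k
      _ = 0 := Finset.sum_eq_zero fun k _ =>
          int_fderiv_zero _ ((hGX k).of_le (by norm_num)) (hGXs k) _
  -- pass to the limit
  have hlim : Filter.Tendsto (fun n : ℕ => ∫ x, f (Φ x + up (1 / ((n : ℝ) + 1))) j * div x)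
      Filter.atTop (𝓝 (∫ x, f (Φ x) j * div x)) := by
    apply tendsto_integral_of_dominated_convergence (fun x => ‖div x‖)
    · intro n
      exact (shifted (1 / ((n : ℝ) + 1)) (by positivity)).1.aestronglyMeasurable
    · exact hdivint.norm
    · intro n
      refine Filter.Eventually.of_forall fun x => ?_
      by_cases hx : x ∈ Ω
      · rw [norm_mul]
        have := norm_le_one (add_up_mem (hM hx) (ε := 1 / ((n : ℝ) + 1)) (by positivity)) j
        nlinarith [norm_nonneg (div x)]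
      · rw [hdiv0 x fun h => hx (hsupp h)]; simp
    · refine Filter.Eventually.of_forall fun x => ?_
      by_cases hx : x ∈ Ω
      · apply Filter.Tendsto.mul_const
        have h1 := continuousOn_f j (Φ x) (M_sub_D (hM hx))
        have h2 : Filter.Tendsto (fun n : ℕ => Φ x + up (1 / ((n : ℝ) + 1))) Filter.atTop
            (𝓝[D] (Φ x)) := by
          rw [tendsto_nhdsWithin_iff]
          constructor
          · have h3 : Filter.Tendsto (fun n : ℕ => Φ x + up (1 / ((n : ℝ) + 1))) Filter.atTop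
                (𝓝 (Φ x + up 0)) := by
              have h4 : Continuous fun ε : ℝ => Φ x + up ε := by
                apply continuous_const.add
                rw [continuous_pi_iff]
                intro i
                fin_cases i
                · exact continuous_const
                · exact (continuous_ofReal.mul continuous_const)
                · exact continuous_const
                · exact (continuous_ofReal.mul continuous_const)
              exact (h4.tendsto 0).comp tendsto_one_div_add_atTop_nhds_zero_nat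
            have h5 : Φ x + up 0 = Φ x := by
              funext i
              fin_cases i <;> simp [up]
            rwa [h5] at h3
          · exact Filter.Eventually.of_forall fun n => add_up_mem (hM hx) (by positivity)
        exact h1.tendsto.comp h2
      · have h0 := hdiv0 x fun h => hx (hsupp h)
        simp [h0]
  have h0 : ∀ n : ℕ, ∫ x, f (Φ x + up (1 / ((n : ℝ) + 1))) j * div x = 0 := fun n =>
    (shifted _ (by positivity)).2
  simp only [h0] at hlim
  exact tendsto_nhds_unique hlim tendsto_const_nhds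

/-! ### Meromorphic extension -/

lemma zero_mem_M : (0 : Fin 4 → ℂ) ∈ M := ⟨by simp, by simp⟩

lemma den_dense (j : Fin 5) (V : Set (Fin 4 → ℂ)) (hV : IsOpen V) (hne : V.Nonempty) :
    ∃ x ∈ V, den j x ≠ 0 := by
  by_contra hcon
  push Not at hcon
  obtain ⟨x, hx⟩ := hne
  set y : Fin 4 → ℂ := ![0, 1, 0, 1] with hy
  have hden : Differentiable ℂ (den j) := (contDiff_den j).differentiable (by norm_num)
  have hline : Differentiable ℂ fun t : ℂ => x + t • (y - x) := by fun_prop
  have hg : Differentiable ℂ fun t : ℂ => den j (x + t • (y - x)) := hden.comp hline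
  have han : AnalyticOnNhd ℂ (fun t : ℂ => den j (x + t • (y - x))) Set.univ :=
    fun t _ => hg.analyticAt t
  have hz : (fun t : ℂ => den j (x + t • (y - x))) =ᶠ[𝓝 0] fun _ => 0 := by
    have h1 : ∀ᶠ t : ℂ in 𝓝 0, x + t • (y - x) ∈ V := by
      have := hline.continuous.tendsto (0 : ℂ)
      simp only [zero_smul, add_zero] at this
      exact this.eventually (hV.mem_nhds hx)
    filter_upwards [h1] with t ht
    exact hcon _ ht
  have h0 := AnalyticOnNhd.eq_of_eventuallyEq han (fun t _ => analyticAt_const) hz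
  have h1 := congrFun h0 1
  have h2 : x + (1 : ℂ) • (y - x) = y := by simp
  simp only [h2] at h1
  have hI : I + 1 ≠ 0 := I_add_ne (by simp)
  have hQ : (1 : ℂ) + 1 - I * 1 * 1 ≠ 0 := by
    intro h
    have := congrArg Complex.im h
    simp at this
  revert h1
  fin_cases j
  · exact mul_ne_zero hI hQ
  · exact mul_ne_zero hI hQ
  · exact mul_ne_zero hI hQ
  · exact hI
  · exact hI

lemma mero : ExtendsMeromorphically M 0 f := by
  refine ⟨Set.univ, num, den, isOpen_univ, Set.mem_univ _, fun j => ⟨?_, ?_, ?_, ?_⟩⟩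
  · exact ((contDiff_num j).differentiable (by norm_num)).differentiableOn
  · exact ((contDiff_den j).differentiable (by norm_num)).differentiableOn
  · exact fun V _ hV hne => den_dense j V hV hne
  · rintro q ⟨hq, -⟩ V - hV hqV H hH hHeq
    have hgood : ∀ x ∈ V, x ∈ D → Q x ≠ 0 → f x j = H x := by
      intro x hxV hxD hQ
      have hd := den_ne hxD hQ j
      rw [f, ← hHeq x hxV, mul_div_assoc, div_self hd, mul_one]
    by_cases hQ : Q q = 0
    · have h0 := eq_zero_of_Q (M_sub_D hq) hQ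
      subst h0
      -- approach `0` along a real segment
      have hc : Filter.Tendsto (fun t : ℝ => (![0, (t : ℂ), 0, 0] : Fin 4 → ℂ)) (𝓝[≠] 0) (𝓝 0) := by
        have : Continuous fun t : ℝ => (![0, (t : ℂ), 0, 0] : Fin 4 → ℂ) := by
          rw [continuous_pi_iff]
          intro i
          fin_cases i
          · exact continuous_const
          · exact continuous_ofReal
          · exact continuous_const
          · exact continuous_const
        have h1 := this.tendsto 0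
        have h2 : (![0, ((0 : ℝ) : ℂ), 0, 0] : Fin 4 → ℂ) = 0 := by
          funext i
          fin_cases i <;> simp
        rw [h2] at h1
        exact h1.mono_left nhdsWithin_le_nhds
      have hmem : ∀ t : ℝ, (![0, (t : ℂ), 0, 0] : Fin 4 → ℂ) ∈ D := fun t =>
        ⟨by simp, by simp⟩
      have hcD : Filter.Tendsto (fun t : ℝ => (![0, (t : ℂ), 0, 0] : Fin 4 → ℂ)) (𝓝[≠] 0)
          (𝓝[D] 0) :=
        tendsto_nhdsWithin_iff.mpr ⟨hc, Filter.Eventually.of_forall hmem⟩
      have l1 := (continuousOn_f j 0 (M_sub_D zero_mem_M)).tendsto.comp hcD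
      have l2 := ((hH.differentiableAt (hV.mem_nhds hqV)).continuousAt.tendsto).comp hc
      have heq : (fun x => f x j) ∘ (fun t : ℝ => (![0, (t : ℂ), 0, 0] : Fin 4 → ℂ)) =ᶠ[𝓝[≠] 0]
          H ∘ (fun t : ℝ => (![0, (t : ℂ), 0, 0] : Fin 4 → ℂ)) := by
        have h1 := hc.eventually (hV.mem_nhds hqV)
        filter_upwards [h1, self_mem_nhdsWithin] with t ht ht0
        apply hgood _ ht (hmem t)
        have : Q ![0, (t : ℂ), 0, 0] = t := by simp [Q]
        rw [this]
        exact_mod_cast ht0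
      exact tendsto_nhds_unique (l1.congr' heq) l2
    · exact hgood q hqV (M_sub_D hq) hQ

/-! ### No holomorphic extension -/

lemma f_mul_den {x : Fin 4 → ℂ} (hx : x ∈ M) : f x 0 * ((I + x 1) * Q x) = x 1 * R x := by
  by_cases hQ : Q x = 0
  · have h0 := eq_zero_of_Q (M_sub_D hx) hQ
    subst h0
    simp [Q]
  · have hd := den_ne (M_sub_D hx) hQ 0
    exact div_mul_cancel₀ _ hd

/-- the curve `ζ ↦ (0, ζ, 0, -ζ / (1 - ζ² / δ))` -/
noncomputable def cv (δ : ℝ) (ζ : ℂ) : Fin 4 → ℂ := ![0, ζ, 0, -ζ / (1 - ζ ^ 2 / δ)]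

lemma not_holo : ¬ ExtendsHolomorphically M 0 f := by
  rintro ⟨U, F, hU, h0U, hF, hFf⟩
  obtain ⟨r, hr, hrU⟩ := Metric.isOpen_iff.mp hU 0 h0U
  set δ : ℝ := min r 1 / 16 with hδ
  have hδpos : 0 < δ := by positivity
  have hδr : 16 * δ ≤ r := by rw [hδ]; have := min_le_left r 1; linarith
  have hδ1 : 16 * δ ≤ 1 := by rw [hδ]; have := min_le_right r 1; linarith
  have hden : ∀ ζ ∈ Metric.ball (0 : ℂ) (2 * δ), 3 / 4 ≤ ‖1 - ζ ^ 2 / δ‖ := by
    intro ζ hζ
    rw [mem_ball_zero_iff] at hζ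
    have h1 : ‖ζ ^ 2 / (δ : ℂ)‖ ≤ 1 / 4 := by
      rw [norm_div, norm_pow, norm_real, Real.norm_of_nonneg hδpos.le, div_le_iff₀ hδpos]
      have := norm_nonneg ζ
      nlinarith
    have h2 := norm_sub_norm_le (1 : ℂ) (ζ ^ 2 / δ)
    rw [norm_one] at h2
    linarith
  have hdne : ∀ ζ ∈ Metric.ball (0 : ℂ) (2 * δ), (1 : ℂ) - ζ ^ 2 / δ ≠ 0 := by
    intro ζ hζ h
    have := hden ζ hζ
    rw [h, norm_zero] at this
    linarith
  have hcU : ∀ ζ ∈ Metric.ball (0 : ℂ) (2 * δ), cv δ ζ ∈ U := by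
    intro ζ hζ
    apply hrU
    have h3 := hden ζ hζ
    rw [mem_ball_zero_iff] at hζ ⊢
    rw [pi_norm_lt_iff hr]
    intro i
    fin_cases i
    · simpa [cv] using hr
    · change ‖ζ‖ < r
      linarith
    · simpa [cv] using hr
    · change ‖-ζ / (1 - ζ ^ 2 / δ)‖ < r
      rw [norm_div, norm_neg, div_lt_iff₀ (by linarith)]
      nlinarith [norm_nonneg ζ]
  have hcd : DifferentiableOn ℂ (cv δ) (Metric.ball (0 : ℂ) (2 * δ)) := by
    rw [differentiableOn_pi]
    intro i
    fin_cases i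
    · exact differentiableOn_const _
    · exact differentiableOn_id
    · exact differentiableOn_const _
    · change DifferentiableOn ℂ (fun ζ : ℂ => -ζ / (1 - ζ ^ 2 / δ)) _
      apply DifferentiableOn.div
      · fun_prop
      · fun_prop
      · exact hdne
  set k : ℂ → ℂ := fun ζ =>
    F (cv δ ζ) 0 * ((I + ζ) * Q (cv δ ζ)) - ζ * R (cv δ ζ) with hk
  have hcoord : ∀ i, DifferentiableOn ℂ (fun ζ => cv δ ζ i) (Metric.ball (0 : ℂ) (2 * δ)) :=
    fun i => differentiableOn_pi.mp hcd i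
  have hkd : DifferentiableOn ℂ k (Metric.ball (0 : ℂ) (2 * δ)) := by
    have h1 : DifferentiableOn ℂ (fun ζ => F (cv δ ζ)) (Metric.ball (0 : ℂ) (2 * δ)) :=
      hF.comp hcd hcU
    have h2 : DifferentiableOn ℂ (fun ζ => F (cv δ ζ) 0) (Metric.ball (0 : ℂ) (2 * δ)) :=
      differentiableOn_pi.mp h1 0
    have h3 : DifferentiableOn ℂ (fun ζ => Q (cv δ ζ)) (Metric.ball (0 : ℂ) (2 * δ)) :=
      ((hcoord 1).add (hcoord 3)).sub
        (((differentiableOn_const I).mul (hcoord 1)).mul (hcoord 3))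
    have h4 : DifferentiableOn ℂ (fun ζ => R (cv δ ζ)) (Metric.ball (0 : ℂ) (2 * δ)) :=
      ((hcoord 1).add (hcoord 3)).add
        (((differentiableOn_const I).mul (hcoord 1)).mul (hcoord 3))
    exact (h2.mul (((differentiableOn_const I).add differentiableOn_id).mul h3)).sub
      (differentiableOn_id.mul h4)
  have hkan : AnalyticOnNhd ℂ k (Metric.ball (0 : ℂ) (2 * δ)) :=
    hkd.analyticOnNhd Metric.isOpen_ball
  have hreal : ∀ t : ℝ, (t : ℂ) ∈ Metric.ball (0 : ℂ) (2 * δ) → k t = 0 := by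
    intro t ht
    have hM : cv δ t ∈ M := by
      constructor
      · simp [cv]
      · have : (-(t : ℂ) / (1 - (t : ℂ) ^ 2 / δ)) = ((-t / (1 - t ^ 2 / δ) : ℝ) : ℂ) := by
          push_cast; rfl
        change (-(t : ℂ) / (1 - (t : ℂ) ^ 2 / δ)).im = normSq 0
        rw [this, ofReal_im, map_zero]
    have h1 := f_mul_den hM
    rw [← hFf _ ⟨hM, hcU _ ht⟩] at h1
    exact sub_eq_zero.mpr h1
  have h0b : (0 : ℂ) ∈ Metric.ball (0 : ℂ) (2 * δ) := by simpa using hδpos
  have hfreq : ∃ᶠ z in 𝓝[≠] (0 : ℂ), k z = 0 := by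
    have h1 : Filter.Tendsto (fun n : ℕ => (((1 / ((n : ℝ) + 1) : ℝ)) : ℂ)) Filter.atTop
        (𝓝[≠] (0 : ℂ)) := by
      rw [tendsto_nhdsWithin_iff]
      constructor
      · have := (continuous_ofReal.tendsto 0).comp tendsto_one_div_add_atTop_nhds_zero_nat
        rw [ofReal_zero] at this
        exact this
      · refine Filter.Eventually.of_forall fun n => ?_
        have : (1 / ((n : ℝ) + 1) : ℝ) ≠ 0 := by positivity
        exact fun h => this (ofReal_eq_zero.mp h)
    have h2 : ∀ᶠ n : ℕ in Filter.atTop, k (((1 / ((n : ℝ) + 1) : ℝ)) : ℂ) = 0 := by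
      have h3 := (h1.mono_right nhdsWithin_le_nhds).eventually (Metric.isOpen_ball.mem_nhds h0b)
      filter_upwards [h3] with n hn
      exact hreal _ hn
    exact h1.frequently h2.frequently
  have hzero := hkan.eqOn_zero_of_preconnected_of_frequently_eq_zero
    (convex_ball (0 : ℂ) (2 * δ)).isPreconnected h0b hfreq
  have hiδ : I * δ ∈ Metric.ball (0 : ℂ) (2 * δ) := by
    rw [mem_ball_zero_iff, norm_mul, norm_I, one_mul, norm_real, Real.norm_of_nonneg hδpos.le]
    linarith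
  have h1 := hzero hiδ
  have hδc : (δ : ℂ) ≠ 0 := by exact_mod_cast hδpos.ne'
  have hδc1 : (1 : ℂ) + δ ≠ 0 := by
    have : (1 + δ : ℝ) ≠ 0 := by positivity
    exact_mod_cast this
  have hd1 : (1 : ℂ) - (I * δ) ^ 2 / δ = 1 + δ := by
    rw [mul_pow, I_sq]; field_simp; ring
  have hc3 : cv δ (I * δ) = ![0, I * δ, 0, -(I * δ) / (1 + δ)] := by
    rw [cv, hd1]
  have hQ0 : Q (cv δ (I * δ)) = 0 := by
    rw [hc3]
    change I * δ + -(I * δ) / (1 + δ) - I * (I * δ) * (-(I * δ) / (1 + δ)) = 0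
    field_simp
    ring_nf
    rw [show I ^ 3 = -I by rw [pow_succ, I_sq]; ring]
    ring
  have hR0 : R (cv δ (I * δ)) = 2 * I * δ ^ 2 / (1 + δ) := by
    rw [hc3]
    change I * δ + -(I * δ) / (1 + δ) + I * (I * δ) * (-(I * δ) / (1 + δ)) = _
    field_simp
    ring_nf
    rw [I_sq]
    ring
  simp only [hk, hQ0, hR0, Pi.zero_apply, mul_zero, zero_sub, neg_eq_zero] at h1
  have h2 : I * (δ : ℂ) * (2 * I * δ ^ 2 / (1 + δ)) ≠ 0 :=
    mul_ne_zero (mul_ne_zero I_ne_zero hδc)
      (div_ne_zero (mul_ne_zero (mul_ne_zero two_ne_zero I_ne_zero) (pow_ne_zero _ hδc)) hδc1)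
  exact h2 h1

/-- **Negative answer.** There are `n < N`, a generic real-analytic submanifold `M` of `ℂⁿ`,
minimal at `p`, and a continuous CR map `f : M → ∂𝔹_N` which extends meromorphically but not
holomorphically near `p`. -/
theorem result :
    ∃ (n N d : ℕ) (M : Set (Fin n → ℂ)) (p : Fin n → ℂ) (f : (Fin n → ℂ) → (Fin N → ℂ)),
      n < N ∧ p ∈ M ∧ IsSubmfd ω d M ∧ IsGeneric M ∧ IsMinimalAt d M p ∧
      ContinuousOn f M ∧ (∀ j, IsCR d M (fun x => f x j)) ∧
      (∀ x ∈ M, ∑ j, ‖f x j‖ ^ 2 = 1) ∧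
      ExtendsMeromorphically M p f ∧ ¬ ExtendsHolomorphically M p f := by
  refine ⟨4, 5, 6, M, 0, f, by norm_num, zero_mem_M, isSubmfd_M, isGeneric_M, isMinimal_M, ?_,
    isCR_f, ?_, mero, not_holo⟩
  · exact continuousOn_pi.mpr fun j => (continuousOn_f j).mono M_sub_D
  · intro x hx
    simp only [Complex.sq_norm]
    exact sum_eq hx

end Pool.Agent.Results.MP_c4ba3a_an.NoExtension
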